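import Pool.Agent.H27.LV.Targets3

/-!
# MP_70ba79_ag, board lw_modules, module COP: a squarefree form without constant factors is coprime
to its derivative
-/

set_option autoImplicit false

namespace Pool.Agent.H70.LW

open MvPolynomial Pool.Agent.H27.LV

section

variable {k K : Type} [Field k] [Field K] [Algebra k K] {σ : Type}

/-- coefficientwise derivative -/
noncomputable def dD (D : Derivation k K K) (P : MvPolynomial σ K) : MvPolynomial σ K :=
  ∑ m ∈ P.support, monomial m (D (coeff m P))

lemma coeff_dD (D : Derivation k K K) (P : MvPolynomial σ K) (m : σ →₀ ℕ) :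
    coeff m (dD D P) = D (coeff m P) := by
  classical
  unfold dD
  rw [coeff_sum]
  simp only [coeff_monomial]
  rw [Finset.sum_ite_eq' P.support m]
  split_ifs with h
  · rfl
  · rw [notMem_support_iff.1 h, map_zero]

lemma dD_mul (D : Derivation k K K) (A B : MvPolynomial σ K) :
    dD D (A * B) = dD D A * B + A * dD D B := by
  classical
  ext m
  rw [coeff_dD, coeff_mul, coeff_add, coeff_mul, coeff_mul, map_sum, ← Finset.sum_add_distrib]
  refine Finset.sum_congr rfl fun x _ => ?_
  rw [Derivation.leibniz, coeff_dD, coeff_dD]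
  simp only [smul_eq_mul]
  ring

lemma support_dD (D : Derivation k K K) (P : MvPolynomial σ K) :
    (dD D P).support ⊆ P.support := by
  intro m hm
  rw [mem_support_iff, coeff_dD] at hm
  rw [mem_support_iff]
  intro h
  rw [h, map_zero] at hm
  exact hm rfl

lemma totalDegree_dD (D : Derivation k K K) (P : MvPolynomial σ K) :
    (dD D P).totalDegree ≤ P.totalDegree := by
  unfold totalDegree
  exact Finset.sup_mono (support_dD D P)

lemma dD_frm {n e : ℕ} (D : Derivation k K K) (c : Mon (n + 1) e → K) :
    dD D (frm c) = frm (fun β => D (c β)) := by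
  classical
  ext m
  rw [coeff_dD]
  unfold frm
  rw [coeff_sum, coeff_sum, map_sum]
  refine Finset.sum_congr rfl fun f _ => ?_
  rw [coeff_C_mul, coeff_C_mul, mono, coeff_monomial]
  split_ifs
  · rw [mul_one, mul_one]
  · rw [mul_zero, mul_zero, map_zero]

/-- a polynomial which divides its derivative is a constant times a polynomial over `k` -/
lemma exists_of_dvd_dD (D : Derivation k K K)
    (hD : ∀ z : K, D z = 0 → z ∈ Set.range (algebraMap k K)) {P : MvPolynomial σ K} (hP : P ≠ 0)
    (h : P ∣ dD D P) : ∃ (s : K) (P0 : MvPolynomial σ k), s ≠ 0 ∧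
      P = C s * MvPolynomial.map (algebraMap k K) P0 := by
  classical
  -- the quotient is a constant
  obtain ⟨S, hS⟩ := h
  have hS' : ∃ s : K, dD D P = C s * P := by
    by_cases h0 : S = 0
    · exact ⟨0, by rw [hS, h0]; simp⟩
    · have h1 := totalDegree_mul_of_isDomain hP h0
      rw [← hS] at h1
      have h2 := totalDegree_dD D P
      have h3 : S.totalDegree = 0 := by omega
      rw [totalDegree_eq_zero_iff_eq_C] at h3
      refine ⟨coeff 0 S, ?_⟩
      rw [hS, mul_comm, ← h3]
  obtain ⟨s, hs⟩ := hS'
  have hco : ∀ m, D (coeff m P) = s * coeff m P := by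
    intro m
    rw [← coeff_dD, hs, coeff_C_mul]
  obtain ⟨m0, hm0⟩ : ∃ m0, coeff m0 P ≠ 0 := by
    by_contra hcon
    push Not at hcon
    exact hP (by ext m; rw [hcon m, coeff_zero])
  have hr : ∀ m, ∃ r : k, algebraMap k K r = coeff m P / coeff m0 P := by
    intro m
    apply hD
    rw [Derivation.leibniz_div, hco m, hco m0]
    simp only [smul_eq_mul]
    ring
  choose r hr using hr
  refine ⟨coeff m0 P, ∑ m ∈ P.support, monomial m (r m), hm0, ?_⟩
  ext m
  rw [coeff_C_mul, coeff_map, coeff_sum]
  simp only [coeff_monomial]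
  rw [Finset.sum_ite_eq' P.support m]
  split_ifs with h
  · rw [hr m]
    field_simp
  · rw [notMem_support_iff.1 h, map_zero, mul_zero]

end

theorem cop : T_COP := by
  classical
  intro k K _ _ _ n e D c hD hsq hP
  have hc0 : frm c ≠ 0 := hsq.ne_zero
  refine ⟨hc0, ?_⟩
  have hrel : IsRelPrime (frm c) (frm (fun β => D (c β))) := by
    rw [UniqueFactorizationMonoid.isRelPrime_iff_no_prime_factors hc0]
    intro P hPF hPF' hprime
    obtain ⟨Q, hQ⟩ := hPF
    have h1 : P ∣ dD D P * Q := by
      have h2 : dD D (frm c) = dD D P * Q + P * dD D Q := by rw [hQ, dD_mul]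
      rw [dD_frm] at h2
      have h3 : P ∣ dD D P * Q + P * dD D Q := by rw [← h2]; exact hPF'
      exact (dvd_add_left (dvd_mul_right P _)).1 h3
    rcases hprime.dvd_or_dvd h1 with h2 | h2
    · obtain ⟨s, P0, hs, hP0⟩ := exists_of_dvd_dD D hD hprime.ne_zero h2
      obtain ⟨t, ht⟩ := hP P0 ((Dvd.intro_left (C s) hP0.symm).trans ⟨Q, hQ⟩)
      apply hprime.not_isUnit
      rw [hP0, ht, MvPolynomial.map_C, ← C_mul]
      apply IsUnit.map
      rw [isUnit_iff_ne_zero]
      intro h3
      apply hprime.ne_zero
      rw [hP0, ht, MvPolynomial.map_C, ← C_mul, h3, C_0]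
    · apply hprime.not_isUnit
      apply hsq P
      rw [hQ]
      exact mul_dvd_mul_left P h2
  intro g hg
  exact hrel.dvd_of_dvd_mul_right hg

end Pool.Agent.H70.LW
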