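import Pool.Agent.H27.LV.Targets3

/-!
# MP_70ba79_ag, board lw_modules, modules CPL and CPF
-/

set_option autoImplicit false

namespace Pool.Agent.H70.LW

open MvPolynomial Pool.Agent.H27.LV

theorem cpl : T_CPL := by
  classical
  intro F _ P A R _ _ _ _ _ _ α e hα
  obtain ⟨w, hw⟩ : ∃ w : A → P → F, w = fun a p => α p a := ⟨_, rfl⟩
  have hli : LinearIndependent F w := by
    rw [Fintype.linearIndependent_iff]
    intro g hg
    have h1 : α.mulVec g = 0 := by
      funext p
      have h2 := congrFun hg p
      rw [Finset.sum_apply, Pi.zero_apply] at h2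
      simp only [Matrix.mulVec, dotProduct, Pi.zero_apply]
      refine Eq.trans ?_ h2
      refine Finset.sum_congr rfl fun a _ => ?_
      rw [hw]
      simp [mul_comm]
    intro a
    exact congrFun (hα g h1) a
  obtain ⟨b, hbt, hsb, htb, hb⟩ := exists_linearIndepOn_id_extension
    (t := Set.range w ∪ Set.range (fun p : P => (Pi.single p 1 : P → F))) hli.linearIndepOn_id
    Set.subset_union_left
  have hspan : Submodule.span F b = ⊤ := by
    rw [eq_top_iff]
    have h1 : Submodule.span F (Set.range (fun p : P => (Pi.single p 1 : P → F))) ≤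
        Submodule.span F b := Submodule.span_le.2 (Set.subset_union_right.trans htb)
    refine le_trans ?_ h1
    have h2 := (Pi.basisFun F P).span_eq
    rw [← h2]
    apply Submodule.span_mono
    rintro _ ⟨p, rfl⟩
    exact ⟨p, by simp [Pi.basisFun_apply]⟩
  have hfin : b.Finite := hb.setFinite
  have : Fintype b := hfin.fintype
  have hcard : Fintype.card b = Fintype.card P := by
    have h1 := Module.finrank_eq_card_basis (Module.Basis.mk (v := fun x : b => (x : P → F)) hb (by
      rw [Subtype.range_coe_subtype]
      simp only [Set.ofPred_mem_eq]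
      exact hspan.ge))
    rw [Module.finrank_fintype_fun_eq_card] at h1
    exact h1.symm
  have hinj : Function.Injective w := hli.injective
  have hcardR : Fintype.card R = Fintype.card (↥(b \ Set.range w)) := by
    have h1 : (b \ Set.range w).ncard = b.ncard - (Set.range w).ncard :=
      Set.ncard_sdiff hsb (Set.finite_range w)
    have h2 : (Set.range w).ncard = Fintype.card A := by
      rw [← Nat.card_eq_fintype_card, ← Set.image_univ, Set.ncard_image_of_injective _ hinj,
        Set.ncard_univ]
    have h3 : b.ncard = Fintype.card P := by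
      rw [← hcard, ← Nat.card_eq_fintype_card]
      rfl
    have h4 : Fintype.card P = Fintype.card A + Fintype.card R := by
      rw [← Fintype.card_congr e, Fintype.card_sum]
    rw [← Nat.card_eq_fintype_card (α := ↥(b \ Set.range w))]
    change _ = (b \ Set.range w).ncard
    omega
  obtain ⟨ε⟩ : Nonempty (R ≃ ↥(b \ Set.range w)) := ⟨Fintype.equivOfCardEq hcardR⟩
  have hτ : ∀ r : R, ∃ p : P, (Pi.single p 1 : P → F) = (ε r : P → F) := by
    intro r
    rcases hbt (ε r).2.1 with h1 | h1
    · exact absurd h1 (ε r).2.2
    · exact h1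
  choose τ hτ using hτ
  refine ⟨τ, ?_⟩
  intro hdet
  obtain ⟨v, hv0, hv⟩ := Matrix.exists_mulVec_eq_zero_iff.2 hdet
  apply hv0
  -- the family of the columns
  obtain ⟨u, hu⟩ : ∃ u : A ⊕ R → b, (∀ a, (u (Sum.inl a) : P → F) = w a) ∧
      (∀ r, (u (Sum.inr r) : P → F) = Pi.single (τ r) 1) :=
    ⟨Sum.elim (fun a => ⟨w a, hsb ⟨a, rfl⟩⟩) (fun r => ⟨ε r, (ε r).2.1⟩), fun a => rfl,
      fun r => (hτ r).symm⟩
  have huinj : Function.Injective u := by
    rintro (a | r) (a' | r') h
    · have := congrArg (Subtype.val) h
      rw [hu.1, hu.1] at this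
      rw [hinj this]
    · exfalso
      have := congrArg (Subtype.val) h
      rw [hu.1, hu.2, hτ] at this
      exact (ε r').2.2 ⟨a, this⟩
    · exfalso
      have := congrArg (Subtype.val) h
      rw [hu.1, hu.2, hτ] at this
      exact (ε r).2.2 ⟨a', this.symm⟩
    · have := congrArg (Subtype.val) h
      rw [hu.2, hu.2, hτ, hτ] at this
      rw [ε.injective (Subtype.ext this)]
  have hui : LinearIndependent F (fun x : A ⊕ R => (u x : P → F)) :=
    (show LinearIndependent F (fun x : b => (x : P → F)) from hb).comp u huinj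
  rw [Fintype.linearIndependent_iff] at hui
  have hsum : ∑ x, v x • (u x : P → F) = 0 := by
    funext p
    have h1 := congrFun hv (e.symm p)
    simp only [Matrix.mulVec, dotProduct, Matrix.submatrix_apply, id, Pi.zero_apply,
      Equiv.apply_symm_apply] at h1
    rw [Finset.sum_apply, Pi.zero_apply, ← h1]
    refine Finset.sum_congr rfl fun x _ => ?_
    rcases x with a | r
    · rw [Pi.smul_apply, hu.1, hw]
      simp [mul_comm]
    · rw [Pi.smul_apply, hu.2, Pi.single_apply]
      simp [mul_comm]
  funext x
  exact hui v hsum x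

theorem cpf : T_CPF := by
  classical
  intro F _ n d e R _ _ c e0 hc
  obtain ⟨α, hα⟩ : ∃ α : Matrix (Mon (n + 1) (d + e)) (Mon (n + 1) d) F,
    α = Matrix.of fun p p' => (frm c * mono F p'.1).coeff (fs p.1) := ⟨_, rfl⟩
  obtain ⟨τ, hτ⟩ := cpl F (Mon (n + 1) (d + e)) (Mon (n + 1) d) R α e0 (by
    intro v hv
    have h1 : frm c * frm v = 0 := by
      have hhom : (frm c * frm v).IsHomogeneous (d + e) := by
        have := (frm_homog v).mul (frm_homog c)
        rwa [mul_comm] at this
      rw [dec hhom]
      refine Finset.sum_eq_zero fun p _ => ?_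
      have h2 := congrFun hv p
      simp only [Matrix.mulVec, dotProduct, hα, Matrix.of_apply, Pi.zero_apply] at h2
      have h3 : coeff (fs p.1) (frm c * frm v) = 0 := by
        rw [← h2]
        have h4 : frm c * frm v = ∑ p', C (v p') * (frm c * mono F p'.1) := by
          rw [frm, frm, Finset.mul_sum]
          refine Finset.sum_congr rfl fun p' _ => ?_
          ring
        rw [h4, coeff_sum]
        refine Finset.sum_congr rfl fun p' _ => ?_
        rw [coeff_C_mul, mul_comm]
      rw [h3, C_0, zero_mul]
    rcases mul_eq_zero.1 h1 with h2 | h2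
    · exact absurd h2 hc
    · exact frm_zero h2)
  refine ⟨τ, ?_⟩
  have : aug d c τ = Matrix.fromCols α (Matrix.of fun (p : Mon (n + 1) (d + e)) (r : R) =>
      if p = τ r then (1 : F) else 0) := by
    ext p x
    rcases x with p' | r
    · simp [aug, hα]
    · simp [aug]
  rw [this]
  exact hτ

end Pool.Agent.H70.LW
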